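import Pool.Agent.H.MP_0c5eb8_lc.A
/-! Matroid matching in hypergraphic matroids is solvable in polynomial time. -/
namespace Pool.Agent.Results.MP_0c5eb8_lc.Poly
open Pool.Agent.Lib.CX

/-- the vertex set of a hyperedge: first (`false`) or second (`true`) member of the pair number `e.1` -/
def edge (H : List (List ℕ × List ℕ)) (e : Fin H.length × Bool) : Finset ℕ :=
  (if e.2 then H[e.1].2 else H[e.1].1).toFinset

/-- independence in the hypergraphic matroid -/
def Indep (H : List (List ℕ × List ℕ)) (F : Finset (Fin H.length × Bool)) : Prop :=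
  ∀ X ⊆ F, X.Nonempty → X.card + 1 ≤ (X.biUnion (edge H)).card

theorem result : ∃ f : List (List ℕ × List ℕ) → ℕ, PT f ∧ ∀ H,
    IsGreatest {k | ∃ S : Finset (Fin H.length), Indep H (S ×ˢ Finset.univ) ∧ S.card = k} (f H) := by
  refine ⟨_, Pool.Agent.H.MP_0c5eb8_lc.pt_alg, fun H => ?_⟩
  convert Pool.Agent.H.MP_0c5eb8_lc.alg_spec H using 6 with k S
  have : edge H = fun e => (Pool.Agent.H.MP_0c5eb8_lc.ed H e.1 e.2).toFinset := funext fun e => by
    simp [edge, Pool.Agent.H.MP_0c5eb8_lc.ed]
  rw [Indep, this]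
  exact ⟨fun h X a b => h X (fun e he => by simpa using b e he) a,
    fun h X a b => h X b fun e he => (Finset.mem_product.1 (a he)).1⟩

end Pool.Agent.Results.MP_0c5eb8_lc.Poly
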